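import Mathlib
import Pool.Agent.R758.FD.Lower

/-!
# MP_6d4359_pr, Q1: small-ball bounds do not imply the uniform Fourier decay (disproof)

There are a log-concave probability measure `μ` on the plane and a polynomial `f` of degree `4`
such that `P(|f(X) - a| ≤ ε) ≤ 1200 ε^α` for all `a`, all `ε > 0` and all `α ∈ [0,1]` (one constant
for all exponents; `f(X)` has a bounded density), while `|t| |E e^{-itf(X)}|` is unbounded.
Consequently no constant `C'(C,d)` as asked for in Q1 exists, for any `d ≥ 4` and any `C > 0`.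
-/

set_option autoImplicit false

open MeasureTheory Set Filter Topology
open scoped ENNReal Pointwise

namespace Pool.Agent.Results.MP_6d4359_pr.NoUniformDecay

open Pool.Agent.R758.FD (IsLogConcave)

/-- The small-ball estimate `sup_a P(|f(X) - a| ≤ ε) ≤ C ε^α` for all `ε > 0`, `X ~ μ`. -/
def SmallBall {n : ℕ} (μ : Measure (Fin n → ℝ)) (f : MvPolynomial (Fin n) ℝ) (C α : ℝ) : Prop :=
  ∀ a ε : ℝ, 0 < ε →
    μ {x | |MvPolynomial.eval x f - a| ≤ ε} ≤ ENNReal.ofReal (C * ε ^ α)

/-- The Fourier transform `E e^{-itf(X)}` of the law of `f(X)`, `X ~ μ`. -/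
noncomputable def fourierLaw {n : ℕ} (μ : Measure (Fin n → ℝ)) (f : MvPolynomial (Fin n) ℝ)
    (t : ℝ) : ℂ :=
  ∫ x, Complex.exp (-(Complex.I * (t * MvPolynomial.eval x f : ℝ))) ∂μ

/-- Q1 for the given degree `d` and constant `C`, with the constant `C'`. -/
def DecayWith (d : ℕ) (C C' : ℝ) : Prop :=
  ∀ (n : ℕ) (μ : Measure (Fin n → ℝ)), IsProbabilityMeasure μ → IsLogConcave μ →
    ∀ f : MvPolynomial (Fin n) ℝ, f.totalDegree = d →
      ∀ α : ℝ, 1 / (d : ℝ) < α → α < 1 → SmallBall μ f C α →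
        ∀ t : ℝ, t ≠ 0 → ‖fourierLaw μ f t‖ ≤ C' / |t| ^ α

/-- The polynomial `(y - x²)²`. -/
noncomputable def quartic : MvPolynomial (Fin 2) ℝ :=
  (MvPolynomial.X 1 - MvPolynomial.X 0 ^ 2) ^ 2

theorem quartic_degree : quartic.totalDegree = 4 := by
  have h1 : (MvPolynomial.X 1 - MvPolynomial.X 0 ^ 2 : MvPolynomial (Fin 2) ℝ).totalDegree = 2 := by
    rw [sub_eq_add_neg, MvPolynomial.totalDegree_add_eq_right_of_totalDegree_lt]
    · rw [MvPolynomial.totalDegree_neg, MvPolynomial.totalDegree_X_pow]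
    · rw [MvPolynomial.totalDegree_neg, MvPolynomial.totalDegree_X_pow,
        MvPolynomial.totalDegree_X]
      norm_num
  have h0 : (MvPolynomial.X 1 - MvPolynomial.X 0 ^ 2 : MvPolynomial (Fin 2) ℝ) ≠ 0 := by
    intro h
    rw [h] at h1
    simp at h1
  unfold quartic
  rw [sq, MvPolynomial.totalDegree_mul_of_isDomain h0 h0, h1]

open Pool.Agent.R758.FD

/-- The counterexample measure. -/
noncomputable def mu : Measure (Fin 2 → ℝ) :=
  (nu univ)⁻¹ • nu.map (MeasurableEquiv.finTwoArrow (α := ℝ)).symm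

theorem nu_ne_zero : nu univ ≠ 0 := by
  intro h
  have := nu_univ_ge
  rw [h] at this
  simp at this

theorem nu_ne_top : nu univ ≠ ∞ := ne_top_of_le_ne_top ENNReal.one_ne_top nu_univ_le

theorem mu_prob : IsProbabilityMeasure mu := by
  refine ⟨?_⟩
  unfold mu
  rw [Measure.smul_apply, MeasurableEquiv.map_apply, preimage_univ, smul_eq_mul]
  exact ENNReal.inv_mul_cancel nu_ne_zero nu_ne_top

theorem mu_lc : IsLogConcave mu := by
  intro A B hA hB hAn hBn l h0 h1
  have h := isLogConcave_map dens dens_meas dens_lc A B hA hB hAn hBn l h0 h1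
  unfold mu
  simp only [Measure.smul_apply, smul_eq_mul]
  have hk0 : (nu univ)⁻¹ ≠ 0 := ENNReal.inv_ne_zero.2 nu_ne_top
  have hkt : (nu univ)⁻¹ ≠ ∞ := ENNReal.inv_ne_top.2 nu_ne_zero
  rw [ENNReal.mul_rpow_of_nonneg _ _ h0, ENNReal.mul_rpow_of_nonneg _ _ (by linarith)]
  calc (nu univ)⁻¹ ^ l * (nu.map (MeasurableEquiv.finTwoArrow (α := ℝ)).symm) A ^ l *
      ((nu univ)⁻¹ ^ (1 - l) * (nu.map (MeasurableEquiv.finTwoArrow (α := ℝ)).symm) B ^ (1 - l))
      = ((nu univ)⁻¹ ^ l * (nu univ)⁻¹ ^ (1 - l)) *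
        ((nu.map (MeasurableEquiv.finTwoArrow (α := ℝ)).symm) A ^ l *
        (nu.map (MeasurableEquiv.finTwoArrow (α := ℝ)).symm) B ^ (1 - l)) := by ring
    _ = (nu univ)⁻¹ * ((nu.map (MeasurableEquiv.finTwoArrow (α := ℝ)).symm) A ^ l *
        (nu.map (MeasurableEquiv.finTwoArrow (α := ℝ)).symm) B ^ (1 - l)) := by
        rw [← ENNReal.rpow_add _ _ hk0 hkt]
        simp
    _ ≤ _ := by
        gcongr
        exact h

theorem eval_quartic (x : Fin 2 → ℝ) :
    MvPolynomial.eval x quartic = (x 1 - x 0 ^ 2) ^ 2 := by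
  unfold quartic
  simp

theorem mu_small_lin (a ε : ℝ) (hε : 0 < ε) :
    mu {x | |MvPolynomial.eval x quartic - a| ≤ ε} ≤ ENNReal.ofReal (1200 * ε) := by
  unfold mu
  rw [Measure.smul_apply, MeasurableEquiv.map_apply, smul_eq_mul]
  have hset : (MeasurableEquiv.finTwoArrow (α := ℝ)).symm ⁻¹'
      {x | |MvPolynomial.eval x quartic - a| ≤ ε} = {z | |(z.2 - z.1 ^ 2) ^ 2 - a| ≤ ε} := by
    ext z
    simp only [mem_preimage, mem_ofPred_eq, eval_quartic]
    simp [MeasurableEquiv.finTwoArrow]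
  rw [hset]
  have h1 := nu_small a ε hε
  have h2 : (nu univ)⁻¹ ≤ ENNReal.ofReal 4 := by
    rw [ENNReal.inv_le_iff_inv_le, ← ENNReal.ofReal_inv_of_pos (by norm_num)]
    refine le_trans (le_of_eq ?_) nu_univ_ge
    norm_num
  calc (nu univ)⁻¹ * nu {z | |(z.2 - z.1 ^ 2) ^ 2 - a| ≤ ε}
      ≤ ENNReal.ofReal 4 * ENNReal.ofReal (300 * ε) := by gcongr
    _ = ENNReal.ofReal (1200 * ε) := by
        rw [← ENNReal.ofReal_mul (by norm_num)]
        congr 1
        ring

theorem mu_small (α : ℝ) (h0 : 0 ≤ α) (h1 : α ≤ 1) : SmallBall mu quartic 1200 α := by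
  intro a ε hε
  rcases le_or_gt ε 1 with h | h
  · refine (mu_small_lin a ε hε).trans (ENNReal.ofReal_le_ofReal ?_)
    have : ε ≤ ε ^ α := by
      calc ε = ε ^ (1 : ℝ) := (Real.rpow_one ε).symm
        _ ≤ ε ^ α := Real.rpow_le_rpow_of_exponent_ge hε h h1
    linarith
  · have := mu_prob
    refine prob_le_one.trans ?_
    rw [← ENNReal.ofReal_one]
    refine ENNReal.ofReal_le_ofReal ?_
    have : (1 : ℝ) ≤ ε ^ α := Real.one_le_rpow h.le h0
    linarith

theorem fourier_eq (t : ℝ) :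
    fourierLaw mu quartic t = ((nu univ)⁻¹).toReal • ∫ z, E t (z.2 - z.1 ^ 2) ∂nu := by
  unfold fourierLaw mu
  rw [integral_smul_measure, MeasureTheory.integral_map_equiv]
  congr 1
  refine integral_congr_ae (Filter.Eventually.of_forall fun z => ?_)
  simp only [eval_quartic, E]
  simp [MeasurableEquiv.finTwoArrow]

theorem fourier_large (N : ℕ) :
    15 / 4 * (N : ℝ) - 455 / 2 ≤ tt N * ‖fourierLaw mu quartic (tt N)‖ := by
  rw [fourier_eq, norm_smul]
  have h := char_large N
  have hk : 1 ≤ ((nu univ)⁻¹).toReal := by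
    have : (1 : ℝ≥0∞) ≤ (nu univ)⁻¹ := by
      rw [ENNReal.one_le_inv]
      exact nu_univ_le
    have h2 := ENNReal.toReal_mono (ENNReal.inv_ne_top.2 nu_ne_zero) this
    simpa using h2
  rw [Real.norm_eq_abs, abs_of_nonneg (by linarith)]
  have ht := tt_pos N
  have h3 : 0 ≤ tt N * ‖∫ z, E (tt N) (z.2 - z.1 ^ 2) ∂nu‖ := by positivity
  nlinarith

theorem fourier_unbounded (M : ℝ) : ∃ t : ℝ, 0 < t ∧ M < t * ‖fourierLaw mu quartic t‖ := by
  obtain ⟨N, hN⟩ := exists_nat_gt ((M + 455 / 2) / (15 / 4))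
  refine ⟨tt N, tt_pos N, lt_of_lt_of_le ?_ (fourier_large N)⟩
  rw [div_lt_iff₀ (by norm_num)] at hN
  linarith

/-- Log-concavity passes to images under linear maps. -/
theorem lc_map {m n : ℕ} (μ : Measure (Fin m → ℝ)) (hμ : IsLogConcave μ)
    (L : (Fin m → ℝ) →ₗ[ℝ] (Fin n → ℝ)) (hL : Measurable L) : IsLogConcave (μ.map L) := by
  intro A B hA hB hAn hBn l h0 h1
  rcases h0.eq_or_lt with h | h0
  · subst h
    rw [zero_smul_set hAn, sub_zero, one_smul, zero_add]
    simp
  rcases h1.eq_or_lt with h | h1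
  · subst h
    rw [sub_self, zero_smul_set hBn, one_smul, add_zero]
    simp
  rw [Measure.map_apply hL hA, Measure.map_apply hL hB]
  refine le_trans ?_ (Measure.le_map_apply hL.aemeasurable _)
  rcases (L ⁻¹' A).eq_empty_or_nonempty with hA' | hA'
  · rw [hA', measure_empty, ENNReal.zero_rpow_of_pos h0, zero_mul]
    exact zero_le
  rcases (L ⁻¹' B).eq_empty_or_nonempty with hB' | hB'
  · rw [hB', measure_empty, ENNReal.zero_rpow_of_pos (by linarith : 0 < 1 - l), mul_zero]
    exact zero_le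
  refine (hμ _ _ (hL hA) (hL hB) hA' hB' l h0.le h1.le).trans (measure_mono ?_)
  intro x hx
  obtain ⟨_, ⟨a, ha, rfl⟩, _, ⟨b, hb, rfl⟩, rfl⟩ := Set.mem_add.1 hx
  simp only [Set.mem_preimage, map_add, map_smul]
  exact Set.add_mem_add (Set.smul_mem_smul_set ha) (Set.smul_mem_smul_set hb)

/-- The embedding of the plane into space as `{z = 0}`. -/
noncomputable def emb : (Fin 2 → ℝ) →ₗ[ℝ] (Fin 3 → ℝ) where
  toFun x := ![x 0, x 1, 0]
  map_add' x y := by
    ext i
    fin_cases i <;> simp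
  map_smul' c x := by
    ext i
    fin_cases i <;> simp

theorem emb_meas : Measurable emb := by
  have : Continuous emb := LinearMap.continuous_of_finiteDimensional emb
  exact this.measurable

/-- For every degree `d ≥ 4` there is a polynomial of degree `d` of a log-concave vector with the
law of the planar example. -/
theorem exists_deg (d : ℕ) (hd : 4 ≤ d) : ∃ (n : ℕ) (μ : Measure (Fin n → ℝ))
    (f : MvPolynomial (Fin n) ℝ), IsProbabilityMeasure μ ∧ IsLogConcave μ ∧ f.totalDegree = d ∧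
      (∀ α : ℝ, 0 ≤ α → α ≤ 1 → SmallBall μ f 1200 α) ∧
      ∀ t, fourierLaw μ f t = fourierLaw mu quartic t := by
  rcases hd.eq_or_lt with h | h
  · subst h
    exact ⟨2, mu, quartic, mu_prob, mu_lc, quartic_degree, mu_small, fun t => rfl⟩
  · set f : MvPolynomial (Fin 3) ℝ :=
      (MvPolynomial.X 1 - MvPolynomial.X 0 ^ 2) ^ 2 + MvPolynomial.X 2 ^ d with hf
    have hev : ∀ x : Fin 2 → ℝ, MvPolynomial.eval (emb x) f = MvPolynomial.eval x quartic := by
      intro x
      rw [eval_quartic, hf]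
      have hd0 : d ≠ 0 := by omega
      simp [emb, hd0]
    have hmf : Measurable fun x : Fin 3 → ℝ => MvPolynomial.eval x f :=
      (MvPolynomial.continuous_eval f).measurable
    refine ⟨3, mu.map emb, f, ?_, lc_map mu mu_lc emb emb_meas, ?_, ?_, ?_⟩
    · have := mu_prob
      exact Measure.isProbabilityMeasure_map emb_meas.aemeasurable
    · rw [hf, MvPolynomial.totalDegree_add_eq_right_of_totalDegree_lt]
      · rw [MvPolynomial.totalDegree_X_pow]
      · rw [MvPolynomial.totalDegree_X_pow]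
        refine lt_of_le_of_lt (MvPolynomial.totalDegree_pow _ _) ?_
        have h1 : (MvPolynomial.X 1 - MvPolynomial.X 0 ^ 2 : MvPolynomial (Fin 3) ℝ).totalDegree
            ≤ 2 := by
          refine (MvPolynomial.totalDegree_sub _ _).trans ?_
          rw [MvPolynomial.totalDegree_X_pow, MvPolynomial.totalDegree_X]
          simp
        omega
    · intro α h0 h1 a ε hε
      rw [Measure.map_apply emb_meas (measurableSet_le (hmf.sub_const a).abs measurable_const)]
      have : (emb ⁻¹' {x | |MvPolynomial.eval x f - a| ≤ ε}) =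
          {x | |MvPolynomial.eval x quartic - a| ≤ ε} := by
        ext x
        simp only [mem_preimage, mem_ofPred_eq, hev]
      rw [this]
      exact mu_small α h0 h1 a ε hε
    · intro t
      unfold fourierLaw
      rw [integral_map emb_meas.aemeasurable]
      · simp only [hev]
      · have hc := MvPolynomial.continuous_eval f
        exact (by fun_prop : Continuous fun x : Fin 3 → ℝ =>
          Complex.exp (-(Complex.I * (t * MvPolynomial.eval x f : ℝ)))).aestronglyMeasurable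

/-- No constant `C'` exists, for any degree `d ≥ 4` and any `C > 0`. -/
theorem no_decay (d : ℕ) (hd : 4 ≤ d) (C : ℝ) (hC : 0 < C) : ¬ ∃ C' : ℝ, DecayWith d C C' := by
  rintro ⟨C', hC'⟩
  obtain ⟨n, μ, f, hp, hlc, hdeg, hsb, hF⟩ := exists_deg d hd
  set lam : ℝ := max 1 ((1200 / C) ^ 2) with hlam
  have hl1 : 1 ≤ lam := le_max_left _ _
  have hl2 : (1200 / C) ^ 2 ≤ lam := le_max_right _ _
  have hl0 : 0 < lam := lt_of_lt_of_le one_pos hl1
  set g : MvPolynomial (Fin n) ℝ := MvPolynomial.C lam * f with hg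
  have hgev : ∀ x, MvPolynomial.eval x g = lam * MvPolynomial.eval x f := by
    intro x
    rw [hg]
    simp
  have hgdeg : g.totalDegree = d := by
    have hf0 : f ≠ 0 := by
      intro h
      rw [h] at hdeg
      simp at hdeg
      omega
    rw [hg, MvPolynomial.totalDegree_mul_of_isDomain (by simpa using hl0.ne') hf0,
      MvPolynomial.totalDegree_C, zero_add, hdeg]
  have hgsb : ∀ α : ℝ, 1 / 2 < α → α < 1 → SmallBall μ g C α := by
    intro α h0 h1 a ε hε
    have hset : {x | |MvPolynomial.eval x g - a| ≤ ε} =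
        {x | |MvPolynomial.eval x f - a / lam| ≤ ε / lam} := by
      ext x
      simp only [mem_ofPred_eq, hgev]
      have e1 : lam * MvPolynomial.eval x f - a = lam * (MvPolynomial.eval x f - a / lam) := by
        field_simp
      rw [e1, abs_mul, abs_of_pos hl0, le_div_iff₀ hl0, mul_comm]
    rw [hset]
    refine (hsb α (by linarith) h1.le (a / lam) (ε / lam) (by positivity)).trans
      (ENNReal.ofReal_le_ofReal ?_)
    rw [Real.div_rpow hε.le hl0.le]
    have e2 : 1200 / C ≤ lam ^ α := by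
      calc 1200 / C = Real.sqrt ((1200 / C) ^ 2) := (Real.sqrt_sq (by positivity)).symm
        _ ≤ Real.sqrt lam := Real.sqrt_le_sqrt hl2
        _ = lam ^ (1 / 2 : ℝ) := Real.sqrt_eq_rpow lam
        _ ≤ lam ^ α := Real.rpow_le_rpow_of_exponent_le hl1 h0.le
    have e3 : 0 < lam ^ α := Real.rpow_pos_of_pos hl0 α
    have e4 : 0 < ε ^ α := Real.rpow_pos_of_pos hε α
    rw [div_le_iff₀ hC] at e2
    rw [← mul_div_assoc, div_le_iff₀ e3]
    nlinarith
  have hgF : ∀ t, fourierLaw μ g t = fourierLaw mu quartic (lam * t) := by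
    intro t
    rw [← hF]
    unfold fourierLaw
    refine integral_congr_ae (Filter.Eventually.of_forall fun x => ?_)
    simp only [hgev]
    congr 4
    ring
  obtain ⟨s, hs, hM⟩ := fourier_unbounded (C' * lam)
  set t := s / lam with ht'
  have ht : 0 < t := by positivity
  have hlt : lam * t = s := by
    rw [ht']
    field_simp
  have h1 : ∀ α : ℝ, 1 / 2 < α → α < 1 → t ^ α * ‖fourierLaw mu quartic s‖ ≤ C' := by
    intro α ha hb
    have hd' : (4 : ℝ) ≤ d := by exact_mod_cast hd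
    have h := hC' n μ hp hlc g hgdeg α (by
      refine lt_of_le_of_lt ?_ ha
      exact one_div_le_one_div_of_le (by norm_num) (by linarith)) hb (hgsb α ha hb) t ht.ne'
    rw [abs_of_pos ht, le_div_iff₀ (Real.rpow_pos_of_pos ht α), hgF, hlt] at h
    linarith
  have h2 : Tendsto (fun α : ℝ => t ^ α * ‖fourierLaw mu quartic s‖) (𝓝[<] 1)
      (𝓝 (t ^ (1 : ℝ) * ‖fourierLaw mu quartic s‖)) := by
    refine Tendsto.mul_const _ ?_
    have hc : ContinuousAt (fun α : ℝ => t ^ α) 1 := Real.continuousAt_const_rpow ht.ne'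
    exact hc.tendsto.mono_left nhdsWithin_le_nhds
  have h3 : t ^ (1 : ℝ) * ‖fourierLaw mu quartic s‖ ≤ C' := by
    refine le_of_tendsto h2 ?_
    have : Ioo (1 / 2 : ℝ) 1 ∈ 𝓝[<] (1 : ℝ) := Ioo_mem_nhdsLT (by norm_num)
    filter_upwards [this] with α hα
    exact h1 α hα.1 hα.2
  rw [Real.rpow_one, ht', div_mul_eq_mul_div, div_le_iff₀ hl0] at h3
  linarith

/-- **Disproof of Q1.** First part: a log-concave probability measure `μ` on the plane and a
polynomial `f` of degree `4` satisfy the small-ball estimate with one constant `1200` for all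
exponents `α ∈ [0,1]`, yet `t ↦ t |E e^{-itf(X)}|` is unbounded. Second part: for no `d ≥ 4` and
no `C > 0` there is a constant `C'` as in Q1. Third part: hence Q1 is false. -/
theorem result :
    (∃ (μ : Measure (Fin 2 → ℝ)) (f : MvPolynomial (Fin 2) ℝ),
      IsProbabilityMeasure μ ∧ IsLogConcave μ ∧ f.totalDegree = 4 ∧
      (∀ α : ℝ, 0 ≤ α → α ≤ 1 → SmallBall μ f 1200 α) ∧
      ∀ M : ℝ, ∃ t : ℝ, 0 < t ∧ M < t * ‖fourierLaw μ f t‖) ∧
    (∀ d : ℕ, 4 ≤ d → ∀ C : ℝ, 0 < C → ¬ ∃ C' : ℝ, DecayWith d C C') ∧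
    ¬ (∀ d : ℕ, 2 ≤ d → ∀ C : ℝ, 0 < C → ∃ C' : ℝ, DecayWith d C C') :=
  ⟨⟨mu, quartic, mu_prob, mu_lc, quartic_degree, mu_small, fourier_unbounded⟩, no_decay,
    fun h => no_decay 4 le_rfl 1 one_pos (h 4 (by norm_num) 1 one_pos)⟩

end Pool.Agent.Results.MP_6d4359_pr.NoUniformDecay
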